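import Mathlib

/-!
# Morphisms, fixed points and class P

Definitions for the class P conjecture (Hof, Knill, Simon).  A morphism of the free monoid
`List A` is given by its images of letters `φ : A → List A`.
-/

namespace ClassPConj

variable {A : Type*}

/-- The image of the finite word `w` under the morphism whose letter images are `φ`. -/
def img (φ : A → List A) (w : List A) : List A := w.flatMap φ

/-- The factor of length `n` which the infinite word `u` has at position `i`. -/
def factor (u : ℕ → A) (i n : ℕ) : List A := (List.range n).map fun k => u (i + k)

/-- The language of an infinite word: the set of its finite factors. -/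
def Lang (u : ℕ → A) : Set (List A) := {w | ∃ i n, w = factor u i n}

/-- A finite word is a palindrome if it equals its reversal. -/
def IsPal (w : List A) : Prop := w.reverse = w

/-- An infinite word is palindromic if it has infinitely many distinct palindromic factors. -/
def Palindromic (u : ℕ → A) : Prop := {w | w ∈ Lang u ∧ IsPal w}.Infinite

/-- A morphism `φ` is primitive if there is `k` such that every letter `b` occurs in `φ^k(a)`
for every letter `a`. -/
def Primitive (φ : A → List A) : Prop := ∃ k : ℕ, ∀ a b : A, b ∈ (img φ)^[k] [a]

/-- `φ(u) = u` for an infinite word `u`: the images of the initial segments of `u` are again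
initial segments of `u`, and their lengths are unbounded. -/
def IsFixedPoint (φ : A → List A) (u : ℕ → A) : Prop :=
  (∀ n, img φ (factor u 0 n) = factor u 0 (img φ (factor u 0 n)).length) ∧
    ∀ N, ∃ n, N ≤ (img φ (factor u 0 n)).length

/-- The morphisms `φ` and `ψ` are conjugate: there is a word `w` with `φ(a)w = wψ(a)` for all
letters `a`, or with `wφ(a) = ψ(a)w` for all letters `a`. -/
def Conjugate (φ ψ : A → List A) : Prop :=
  ∃ w : List A, (∀ a, φ a ++ w = w ++ ψ a) ∨ (∀ a, w ++ φ a = ψ a ++ w)

/-- The morphism `ψ` is of class P: there are a palindrome `p` and palindromes `q` (one for each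
letter `a`), possibly empty, with `ψ(a) = pq`. -/
def ClassP (ψ : A → List A) : Prop :=
  ∃ p : List A, IsPal p ∧ ∀ a, ∃ q : List A, IsPal q ∧ ψ a = p ++ q

/-- The morphism `ψ` is of class P': it is conjugate to a morphism of class P. -/
def ClassP' (ψ : A → List A) : Prop := ∃ χ : A → List A, ClassP χ ∧ Conjugate ψ χ

end ClassPConj
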