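import Pool.Agent.Work.MP_caf222_co.Transfer

/-!
# Morphisms of class P mapping factors of `u` to factors of `u`
-/

namespace ClassPConj

theorem letter_of_get {i : ℕ} {w : List (Fin 3)} (h : At u i w) {k : ℕ} {a : Fin 3}
    (hk : w[k]? = some a) : u (i + k) = a := by
  have hlt : k < w.length := by
    by_contra hc
    rw [List.getElem?_eq_none (by omega)] at hk
    exact absurd hk (by simp)
  have := At_get h hlt
  rw [hk] at this
  exact (Option.some.inj this).symm

theorem pal_letters {i : ℕ} {w : List (Fin 3)} (h : At u i w) (hp : IsPal w) {k : ℕ}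
    (hk : k < w.length) : u (i + k) = u (i + (w.length - 1 - k)) := by
  have h1 := At_get h hk
  have h2 := At_get h (k := w.length - 1 - k) (by omega)
  unfold IsPal at hp
  have h3 : w[k]? = w[w.length - 1 - k]? := by
    conv_lhs => rw [← hp]
    rw [List.getElem?_reverse hk]
  rw [h1, h2] at h3
  exact Option.some.inj h3

/-- a square whose root is a palindrome consists of zeros -/
theorem sq_zero {y : List (Fin 3)} (h : Occ u (y ++ y)) (hp : IsPal y) : ∀ a ∈ y, a = 0 := by
  intro a ha
  by_contra hne
  obtain ⟨j, hj, hja⟩ := List.mem_iff_getElem.1 ha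
  obtain ⟨i, hi⟩ := h
  obtain ⟨h1, h2⟩ := At_append.1 hi
  have e1 : u (i + j) = a := letter_of_get h1 (by rw [List.getElem?_eq_getElem hj, hja])
  have e2 : u (i + y.length + j) = a :=
    letter_of_get h2 (by rw [List.getElem?_eq_getElem hj, hja])
  have e3 := pal_letters h1 hp hj
  rw [e1] at e3
  have f1 := (u_ne_zero_iff (i + j)).1 (by rw [e1]; exact hne)
  have f2 := (u_ne_zero_iff (i + y.length + j)).1 (by rw [e2]; exact hne)
  have f3 := (u_ne_zero_iff (i + (y.length - 1 - j))).1 (by rw [← e3]; exact hne)
  omega

/-- factors consisting of zeros are short -/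
theorem zeros_short {w : List (Fin 3)} (h : Occ u w) (h0 : ∀ a ∈ w, a = 0) : w.length ≤ 5 := by
  by_contra hc
  obtain ⟨i, hi⟩ := h
  have hk : (6 - i % 6) % 6 < w.length := by omega
  have h1 : w[(6 - i % 6) % 6]? = some 0 := by
    rw [List.getElem?_eq_getElem hk]
    congr 1
    exact h0 _ (List.getElem_mem hk)
  have h2 := letter_of_get hi h1
  exact (u_ne_zero_iff _).2 (by omega) h2

theorem zeros_pos {i : ℕ} (h : At u i [0, 0, 0, 0, 0]) : i % 6 = 1 := by
  have h0 : u (i + 0) = 0 := letter_of_get h rfl
  have h1 : u (i + 1) = 0 := letter_of_get h rfl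
  have h2 : u (i + 2) = 0 := letter_of_get h rfl
  have h3 : u (i + 3) = 0 := letter_of_get h rfl
  have h4 : u (i + 4) = 0 := letter_of_get h rfl
  have g : ∀ k, u k = 0 → k % 6 ≠ 0 := fun k hk hc => (u_ne_zero_iff k).2 hc hk
  have g0 := g _ h0
  have g1 := g _ h1
  have g2 := g _ h2
  have g3 := g _ h3
  have g4 := g _ h4
  omega

theorem no_seven_ones {a : ℕ} (h : ∀ k, k < 7 → U (a + k) = 1) : False := by
  have h0 := mod_of_U_one (h 0 (by norm_num))
  have h1 := mod_of_U_one (h 1 (by norm_num))
  have h2 := mod_of_U_one (h 2 (by norm_num))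
  have h3 := mod_of_U_one (h 3 (by norm_num))
  have h4 := mod_of_U_one (h 4 (by norm_num))
  have h5 := mod_of_U_one (h 5 (by norm_num))
  have h6 := mod_of_U_one (h 6 (by norm_num))
  omega

theorem no_four_twos {a : ℕ} (h : ∀ k, k < 4 → U (a + k) = 2) : False := by
  have h0 := mod_of_U_two (h 0 (by norm_num))
  have h1 := mod_of_U_two (h 1 (by norm_num))
  have h2 := mod_of_U_two (h 2 (by norm_num))
  have h3 := mod_of_U_two (h 3 (by norm_num))
  omega

/-- concrete factors -/
theorem occ_zeros : Occ u [0, 0, 0, 0, 0] := by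
  refine ⟨1, ?_⟩
  simp only [At_cons]
  refine ⟨u_zero (by omega), u_zero (by omega), u_zero (by omega), u_zero (by omega),
    u_zero (by omega), At_nil _ _⟩

/-- `1 0^5` three times, then `1` -/
def word1 : List (Fin 3) := [1, 0, 0, 0, 0, 0, 1, 0, 0, 0, 0, 0, 1, 0, 0, 0, 0, 0, 1]

theorem occ_word1 : Occ u (word1 ++ [0, 0, 0, 0, 0]) := by
  refine ⟨6, ?_⟩
  unfold word1
  refine At_six (by omega) (U_one (by omega) (by omega) (by omega) (by omega)) ?_
  refine At_six (by omega) (U_one (by omega) (by omega) (by omega) (by omega)) ?_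
  refine At_six (by omega) (U_one (by omega) (by omega) (by omega) (by omega)) ?_
  refine At_six (by omega) (U_one (by omega) (by omega) (by omega) (by omega)) ?_
  exact At_nil _ _

/-- `2 0^5 2` -/
def word2 : List (Fin 3) := [2, 0, 0, 0, 0, 0, 2]

theorem occ_word2 : Occ u (word2 ++ [0, 0, 0, 0, 0]) := by
  refine ⟨36, ?_⟩
  unfold word2
  refine At_six (by omega) (U_two (by omega)) ?_
  refine At_six (by omega) ?_ ?_
  · rw [U_seven (by omega)]
    exact U_two (by omega)
  exact At_nil _ _

/-- `2 0^5`, then five times `1 0^5`, then `2` -/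
def word3 : List (Fin 3) := [2, 0, 0, 0, 0, 0, 1, 0, 0, 0, 0, 0, 1, 0, 0, 0, 0, 0,
  1, 0, 0, 0, 0, 0, 1, 0, 0, 0, 0, 0, 1, 0, 0, 0, 0, 0, 2]

theorem occ_word3 : Occ u (word3 ++ [0, 0, 0, 0, 0]) := by
  refine ⟨0, ?_⟩
  unfold word3
  refine At_six (by omega) (U_two (by omega)) ?_
  refine At_six (by omega) (U_one (by omega) (by omega) (by omega) (by omega)) ?_
  refine At_six (by omega) (U_one (by omega) (by omega) (by omega) (by omega)) ?_
  refine At_six (by omega) (U_one (by omega) (by omega) (by omega) (by omega)) ?_
  refine At_six (by omega) (U_one (by omega) (by omega) (by omega) (by omega)) ?_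
  refine At_six (by omega) (U_one (by omega) (by omega) (by omega) (by omega)) ?_
  refine At_six (by omega) (U_two (by omega)) ?_
  exact At_nil _ _

theorem all_zero_img {ψ : Fin 3 → List (Fin 3)} (h : ∀ a, ∀ b ∈ ψ a, b = 0) (w : List (Fin 3)) :
    ∀ b ∈ img ψ w, b = 0 := by
  intro b hb
  unfold img at hb
  rw [List.mem_flatMap] at hb
  obtain ⟨a, _, hb⟩ := hb
  exact h a b hb

/-- Case A2: a morphism of class P with `p` of length one does not exist. -/
theorem case_long {ψ : Fin 3 → List (Fin 3)} {e : Fin 3}
    (h : ∀ a, ∃ q, IsPal q ∧ ψ a = [e] ++ q) (hm : Maps ψ) : False := by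
  have hcons : ∀ a, ∃ z, ψ a = e :: z := by
    intro a
    obtain ⟨q, _, hq⟩ := h a
    exact ⟨q, hq⟩
  obtain ⟨t', ht⟩ := hcons 0
  obtain ⟨c', hc⟩ := hcons 1
  set t := ψ 0 with ht_def
  -- the fifth power
  have hT : img ψ [0, 0, 0, 0, 0] = t ++ (t ++ (t ++ (t ++ t))) := by
    simp only [img_cons, img_nil, List.append_nil, ← ht_def]
  have hTe : Occ u (t ++ (t ++ (t ++ (t ++ t)))) := by
    rw [← hT]
    exact hm _ occ_zeros
  -- zero case
  by_cases hz : ∀ a ∈ t, a = 0
  · have hocc : Occ u ([0, 0, 0, 0, 0] ++ [1]) := by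
      refine ⟨1, ?_⟩
      simp only [List.cons_append, List.nil_append, At_cons]
      refine ⟨u_zero (by omega), u_zero (by omega), u_zero (by omega), u_zero (by omega),
        u_zero (by omega), ?_, At_nil _ _⟩
      exact (u_mul 1).trans (U_one (by omega) (by omega) (by omega) (by omega))
    have h1 := hm _ hocc
    rw [img_append, hT, img_singleton, hc] at h1
    have he : e = 0 := hz e (by rw [ht]; simp)
    have h2 : Occ u ((t ++ (t ++ (t ++ (t ++ t)))) ++ [e]) := by
      have : (t ++ (t ++ (t ++ (t ++ t)))) ++ e :: c'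
        = ((t ++ (t ++ (t ++ (t ++ t)))) ++ [e]) ++ c' := by simp
      rw [this] at h1
      exact h1.left
    have h3 := zeros_short h2 (by
      intro a ha
      simp only [List.mem_append, List.mem_singleton] at ha
      rcases ha with (ha | ha | ha | ha | ha) | ha
      · exact hz a ha
      · exact hz a ha
      · exact hz a ha
      · exact hz a ha
      · exact hz a ha
      · rw [ha]; exact he)
    have hl : 1 ≤ t.length := by rw [ht]; simp
    simp only [List.length_append, List.length_singleton] at h3
    omega
  -- now `t` has a nonzero letter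
  push Not at hz
  obtain ⟨a, ha, hane⟩ := hz
  obtain ⟨j, hj, hja⟩ := List.mem_iff_getElem.1 ha
  have h6 : t.length % 6 = 0 := by
    obtain ⟨i, hi⟩ := hTe
    obtain ⟨h1, h2⟩ := At_append.1 hi
    have h2 := (At_append.1 h2).1
    have e1 : u (i + j) = a := letter_of_get h1 (by rw [List.getElem?_eq_getElem hj, hja])
    have e2 : u (i + t.length + j) = a :=
      letter_of_get h2 (by rw [List.getElem?_eq_getElem hj, hja])
    have f1 := (u_ne_zero_iff (i + j)).1 (by rw [e1]; exact hane)
    have f2 := (u_ne_zero_iff (i + t.length + j)).1 (by rw [e2]; exact hane)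
    omega
  obtain ⟨q, hq⟩ : ∃ q, t.length = 6 * q := ⟨t.length / 6, by omega⟩
  have hq1 : 1 ≤ q := by
    have : 1 ≤ t.length := by rw [ht]; simp
    omega
  -- the long palindrome
  have hocc := occ_word1
  have h1 : Occ u (word1 ++ [0]) := by
    have : word1 ++ [0, 0, 0, 0, 0] = (word1 ++ [0]) ++ [0, 0, 0, 0] := by simp
    rw [this] at hocc
    exact hocc.left
  have h2 := hm _ h1
  rw [img_append, img_singleton, ← ht_def, ht] at h2
  have h3 : Occ u (img ψ word1 ++ [e]) := by
    have : img ψ word1 ++ e :: t' = (img ψ word1 ++ [e]) ++ t' := by simp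
    rw [this] at h2
    exact h2.left
  have hpal : IsPal (img ψ word1 ++ [e]) := by
    have := img_rev (ψ := ψ) (p := [e]) rfl h word1
    unfold IsPal
    rw [this]
    rfl
  obtain ⟨i, hi⟩ := h3
  set X := img ψ [1, 0, 0, 0, 0, 0, 1] with hX
  have hXlen : X.length = 2 * (ψ 1).length + 30 * q := by
    rw [hX]
    simp only [img_cons, img_nil, List.append_nil, ← ht_def, List.length_append]
    omega
  have hXe : ∃ X', X = e :: X' := by
    refine ⟨c' ++ img ψ [0, 0, 0, 0, 0, 1], ?_⟩
    rw [hX, img_cons, hc]
    rfl
  have hsplit : img ψ word1 ++ [e] = X ++ ((t ++ (t ++ (t ++ (t ++ t)))) ++ (X ++ [e])) := by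
    rw [← hT, hX]
    rw [← List.append_assoc, ← List.append_assoc, ← img_append, ← img_append]
    rfl
  have hlen : (img ψ word1 ++ [e]).length = 2 * X.length + 30 * q + 1 := by
    rw [hsplit]
    simp only [List.length_append, List.length_singleton]
    omega
  have hP : ∀ k, k ≤ X.length + 15 * q →
      u (i + X.length + 15 * q - k) = u (i + X.length + 15 * q + k) := by
    intro k hk
    have := pal_letters hi hpal (k := X.length + 15 * q - k) (by omega)
    rw [hlen] at this
    rw [show i + X.length + 15 * q - k = i + (X.length + 15 * q - k) by omega,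
      show i + X.length + 15 * q + k
        = i + (2 * X.length + 30 * q + 1 - 1 - (X.length + 15 * q - k)) by omega]
    exact this
  -- the period
  rw [hsplit] at hi
  have hi2 := (At_append.1 hi).2
  obtain ⟨X', hX'⟩ := hXe
  have hi3 : At u (i + X.length) ((t ++ (t ++ (t ++ (t ++ t)))) ++ [e]) := by
    have : (t ++ (t ++ (t ++ (t ++ t)))) ++ (X ++ [e])
      = ((t ++ (t ++ (t ++ (t ++ t)))) ++ [e]) ++ (X' ++ [e]) := by
      rw [hX']; simp
    rw [this] at hi2
    exact (At_append.1 hi2).1
  set V := t ++ (t ++ (t ++ (t ++ [e]))) with hV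
  have hVlen : V.length = 24 * q + 1 := by
    rw [hV]
    simp only [List.length_append, List.length_singleton]
    omega
  have hW1 : (t ++ (t ++ (t ++ (t ++ t)))) ++ [e] = t ++ V := by
    rw [hV]; simp
  have hW2 : (t ++ (t ++ (t ++ (t ++ t)))) ++ [e] = V ++ (t' ++ [e]) := by
    rw [hV, ht]; simp
  have hA1 := (At_append.1 (hW1 ▸ hi3)).2
  have hA2 := (At_append.1 (hW2 ▸ hi3)).1
  have hR : ∀ k, k ≤ 24 * q → u (i + X.length + k) = u (i + X.length + k + 6 * q) := by
    intro k hk
    have e1 := At_get hA1 (k := k) (by omega)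
    have e2 := At_get hA2 (k := k) (by omega)
    rw [e1] at e2
    have := (Option.some.inj e2).symm
    rw [this, hq]
    congr 1
    omega
  -- the centre
  set s := i + X.length + 15 * q with hs
  have hs3 : s % 6 = 0 ∨ s % 6 = 3 := by
    have e1 := hP (s % 6) (by omega)
    have f1 := (u_ne_zero_iff (s - s % 6)).2 (by omega)
    rw [e1] at f1
    have f2 := (u_ne_zero_iff _).1 f1
    omega
  rcases hs3 with hs0 | hs3
  · obtain ⟨m, hm⟩ : ∃ m, s = 6 * m := ⟨s / 6, by omega⟩
    refine no_central_fifth q hq1 m (by omega) ?_ ?_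
    · intro k hk
      have := hP (6 * k) (by omega)
      rw [hm, show 6 * m - 6 * k = 6 * (m - k) by omega, show 6 * m + 6 * k = 6 * (m + k) by omega,
        u_mul, u_mul] at this
      exact this
    · intro n h1 h2
      have := hR (6 * n - (i + X.length)) (by omega)
      rw [show i + X.length + (6 * n - (i + X.length)) = 6 * n by omega,
        show 6 * n + 6 * q = 6 * (n + q) by omega, u_mul, u_mul] at this
      exact this
  · obtain ⟨m, hm⟩ : ∃ m, s = 6 * m + 3 := ⟨s / 6, by omega⟩
    have g0 := hP 3 (by omega)
    have g1 := hP 9 (by omega)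
    have g2 := hP 15 (by omega)
    rw [hm, show 6 * m + 3 - 3 = 6 * m by omega, show 6 * m + 3 + 3 = 6 * (m + 1) by omega,
      u_mul, u_mul] at g0
    rw [hm, show 6 * m + 3 - 9 = 6 * (m - 1) by omega, show 6 * m + 3 + 9 = 6 * (m + 2) by omega,
      u_mul, u_mul] at g1
    rw [hm, show 6 * m + 3 - 15 = 6 * (m - 2) by omega, show 6 * m + 3 + 15 = 6 * (m + 3) by omega,
      u_mul, u_mul] at g2
    exact no_even_pal (by omega) g0 g1 g2

/-- Case `p` empty: all images are palindromes, and the morphism is the identity. -/
theorem case_short {ψ : Fin 3 → List (Fin 3)} (h : ∀ a, IsPal (ψ a)) (hm : Maps ψ)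
    (hne : ∃ a, ψ a ≠ []) : ∀ a, ψ a = [a] := by
  have hrev : ∀ v : List (Fin 3), IsPal v → IsPal (img ψ v) := by
    intro v hv
    have := img_rev (ψ := ψ) (p := []) rfl (fun a => ⟨ψ a, h a, rfl⟩) v
    unfold IsPal at hv ⊢
    rw [List.append_nil, List.append_nil, hv] at this
    exact this
  have hT : img ψ [0, 0, 0, 0, 0] = ψ 0 ++ (ψ 0 ++ (ψ 0 ++ (ψ 0 ++ ψ 0))) := by
    simp only [img_cons, img_nil, List.append_nil]
  have hT5 := hm _ occ_zeros
  rw [hT] at hT5
  have hz : ∀ a ∈ ψ 0, a = 0 := by
    refine sq_zero ?_ (h 0)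
    have : ψ 0 ++ (ψ 0 ++ (ψ 0 ++ (ψ 0 ++ ψ 0)))
      = (ψ 0 ++ ψ 0) ++ (ψ 0 ++ (ψ 0 ++ ψ 0)) := by simp
    rw [this] at hT5
    exact hT5.left
  have hl5 := zeros_short hT5 (by
    intro a ha
    simp only [List.mem_append] at ha
    rcases ha with ha | ha | ha | ha | ha <;> exact hz a ha)
  simp only [List.length_append] at hl5
  have hocc1 := (occ_word1).left
  have hocc2 := (occ_word2).left
  have hocc3 := (occ_word3).left
  rcases Nat.eq_zero_or_pos (ψ 0).length with hl0 | hl0
  · -- `ψ 0` is empty
    exfalso
    have h0 : ψ 0 = [] := List.eq_nil_of_length_eq_zero hl0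
    have z1 : ∀ a ∈ ψ 1, a = 0 := by
      refine sq_zero ?_ (h 1)
      have := hm _ hocc1
      unfold word1 at this
      simp only [img_cons, img_nil, List.append_nil, h0, List.nil_append] at this
      have e : ψ 1 ++ (ψ 1 ++ (ψ 1 ++ ψ 1)) = (ψ 1 ++ ψ 1) ++ (ψ 1 ++ ψ 1) := by simp
      rw [e] at this
      exact this.left
    have z2 : ∀ a ∈ ψ 2, a = 0 := by
      refine sq_zero ?_ (h 2)
      have := hm _ hocc2
      unfold word2 at this
      simp only [img_cons, img_nil, List.append_nil, h0, List.nil_append] at this
      exact this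
    have zall : ∀ a, ∀ b ∈ ψ a, b = 0 := by
      intro a
      fin_cases a
      · exact hz
      · exact z1
      · exact z2
    obtain ⟨n, hn⟩ := long_right hne 0 6
    have := zeros_short (hm _ ⟨0, At_factor u 0 n⟩) (all_zero_img zall _)
    omega
  · -- `ψ 0 = [0]`
    have h0 : ψ 0 = [0] := by
      have hl1 : (ψ 0).length = 1 := by omega
      obtain ⟨b, hb⟩ := List.length_eq_one_iff.1 hl1
      rw [hb]
      rw [hz b (by rw [hb]; simp)]
    have hz5 : img ψ [0, 0, 0, 0, 0] = [0, 0, 0, 0, 0] := by
      rw [hT, h0]; rfl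
    -- shape of the images of `1` and `2`
    have hw1 : img ψ word1 = ψ 1 ++ ([0, 0, 0, 0, 0] ++ (ψ 1 ++ ([0, 0, 0, 0, 0] ++
        (ψ 1 ++ ([0, 0, 0, 0, 0] ++ ψ 1))))) := by
      unfold word1
      simp only [img_cons, img_nil, List.append_nil, h0]
      simp
    have hw2 : img ψ word2 = ψ 2 ++ ([0, 0, 0, 0, 0] ++ ψ 2) := by
      unfold word2
      simp only [img_cons, img_nil, List.append_nil, h0]
      simp
    have h1 : ψ 1 = [1] := by
      have hm1 := hm _ occ_word1
      rw [img_append, hz5, hw1] at hm1
      obtain ⟨i, hi⟩ := hm1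
      have hi' := (At_append.1 hi).1
      have a1 := At_append.1 hi'
      have a2 := At_append.1 a1.2
      have a3 := At_append.1 a2.2
      have a4 := At_append.1 a3.2
      have p1 := zeros_pos a2.1
      have p2 := zeros_pos a4.1
      simp only [List.length_cons, List.length_nil] at p1 p2
      obtain ⟨m, hm1, hlen⟩ : ∃ m, 1 ≤ m ∧ (ψ 1).length = 6 * (m - 1) + 1 :=
        ⟨(ψ 1).length / 6 + 1, by omega, by omega⟩
      have hi6 : i % 6 = 0 := by omega
      obtain ⟨a, rfl⟩ : ∃ a, i = 6 * a := ⟨i / 6, by omega⟩
      have hpal := hrev word1 rfl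
      rw [hw1] at hpal
      have hl := congrArg List.length hw1
      have hP : ∀ k, k ≤ 4 * m - 1 → U (a + k) = U (a + (4 * m - 1 - k)) := by
        intro k hk
        have := pal_letters hi' hpal (k := 6 * k) (by
          simp only [List.length_append, List.length_cons, List.length_nil]; omega)
        simp only [List.length_append, List.length_cons, List.length_nil] at this
        rw [← Nat.mul_add, u_mul] at this
        rw [this, ← u_mul]
        congr 1
        omega
      by_cases hm2 : 2 ≤ m
      · exfalso
        have g0 := hP (2 * m - 1) (by omega)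
        have g1 := hP (2 * m - 2) (by omega)
        have g2 := hP (2 * m - 3) (by omega)
        refine no_even_pal (m := a + (2 * m - 1)) (by omega) ?_ ?_ ?_
        · rw [g0]; congr 1; omega
        · rw [show a + (2 * m - 1) - 1 = a + (2 * m - 2) by omega, g1]; congr 1; omega
        · rw [show a + (2 * m - 1) - 2 = a + (2 * m - 3) by omega, g2]; congr 1; omega
      · have hm1' : m = 1 := by omega
        subst hm1'
        obtain ⟨b, hb⟩ := List.length_eq_one_iff.1 (by omega : (ψ 1).length = 1)
        rw [hb] at hi'
        have b0 : u (6 * a + 0) = b := letter_of_get hi' rfl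
        have b1 : u (6 * a + 6) = b := letter_of_get hi' rfl
        have b2 : u (6 * a + 12) = b := letter_of_get hi' rfl
        have b3 : u (6 * a + 18) = b := letter_of_get hi' rfl
        rw [show 6 * a + 0 = 6 * (a + 0) by ring, u_mul] at b0
        rw [show 6 * a + 6 = 6 * (a + 1) by ring, u_mul] at b1
        rw [show 6 * a + 12 = 6 * (a + 2) by ring, u_mul] at b2
        rw [show 6 * a + 18 = 6 * (a + 3) by ring, u_mul] at b3
        rcases U_eq (a + 0) with hU | hU
        · rw [hb, ← b0, hU]
        · exfalso
          rw [b0] at hU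
          rw [hU] at b0 b1 b2 b3
          refine no_four_twos (a := a) ?_
          intro k hk
          interval_cases k
          · exact b0
          · exact b1
          · exact b2
          · exact b3
    have h2 : ψ 2 = [2] := by
      have hm1 := hm _ occ_word2
      rw [img_append, hz5, hw2] at hm1
      obtain ⟨i, hi⟩ := hm1
      have hi' := (At_append.1 hi).1
      have a1 := At_append.1 hi'
      have a2 := At_append.1 a1.2
      have a3 := (At_append.1 hi).2
      have p1 := zeros_pos a2.1
      have p2 := zeros_pos a3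
      simp only [List.length_append, List.length_cons, List.length_nil] at p1 p2
      obtain ⟨m, hm1, hlen⟩ : ∃ m, 1 ≤ m ∧ (ψ 2).length = 6 * (m - 1) + 1 :=
        ⟨(ψ 2).length / 6 + 1, by omega, by omega⟩
      have hi6 : i % 6 = 0 := by omega
      obtain ⟨a, rfl⟩ : ∃ a, i = 6 * a := ⟨i / 6, by omega⟩
      have hpal := hrev word2 rfl
      rw [hw2] at hpal
      have hP : ∀ k, k ≤ 2 * m - 1 → U (a + k) = U (a + (2 * m - 1 - k)) := by
        intro k hk
        have := pal_letters hi' hpal (k := 6 * k) (by
          simp only [List.length_append, List.length_cons, List.length_nil]; omega)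
        simp only [List.length_append, List.length_cons, List.length_nil] at this
        rw [← Nat.mul_add, u_mul] at this
        rw [this, ← u_mul]
        congr 1
        omega
      by_cases hm3 : 3 ≤ m
      · exfalso
        have g0 := hP (m - 1) (by omega)
        have g1 := hP (m - 2) (by omega)
        have g2 := hP (m - 3) (by omega)
        refine no_even_pal (m := a + (m - 1)) (by omega) ?_ ?_ ?_
        · rw [g0]; congr 1; omega
        · rw [show a + (m - 1) - 1 = a + (m - 2) by omega, g1]; congr 1; omega
        · rw [show a + (m - 1) - 2 = a + (m - 3) by omega, g2]; congr 1; omega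
      · have hm3' := hm _ hocc3
        have hw3 : img ψ word3 = ψ 2 ++ ([0, 0, 0, 0, 0, 1, 0, 0, 0, 0, 0, 1, 0, 0, 0, 0, 0, 1,
            0, 0, 0, 0, 0, 1, 0, 0, 0, 0, 0, 1, 0, 0, 0, 0, 0] ++ ψ 2) := by
          unfold word3
          simp only [img_cons, img_nil, List.append_nil, h0, h1]
          simp
        rw [hw3] at hm3'
        obtain ⟨i3, hi3⟩ := hm3'
        rcases (by omega : m = 1 ∨ m = 2) with hm1' | hm2'
        · -- one letter
          subst hm1'
          obtain ⟨b, hb⟩ := List.length_eq_one_iff.1 (by omega : (ψ 2).length = 1)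
          rw [hb] at hi' hi3
          have b0 : u (6 * a + 0) = b := letter_of_get hi' rfl
          rw [Nat.add_zero, u_mul] at b0
          rcases U_eq a with hU | hU
          · exfalso
            rw [← b0, hU] at hi3
            have c0 : u (i3 + 0) = 1 := letter_of_get hi3 rfl
            have c1 : u (i3 + 6) = 1 := letter_of_get hi3 rfl
            have c2 : u (i3 + 12) = 1 := letter_of_get hi3 rfl
            have c3 : u (i3 + 18) = 1 := letter_of_get hi3 rfl
            have c4 : u (i3 + 24) = 1 := letter_of_get hi3 rfl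
            have c5 : u (i3 + 30) = 1 := letter_of_get hi3 rfl
            have c6 : u (i3 + 36) = 1 := letter_of_get hi3 rfl
            have d0 := (u_ne_zero_iff (i3 + 0)).1 (by rw [c0]; decide)
            obtain ⟨x, rfl⟩ : ∃ x, i3 = 6 * x := ⟨i3 / 6, by omega⟩
            rw [show 6 * x + 0 = 6 * (x + 0) by ring, u_mul] at c0
            rw [show 6 * x + 6 = 6 * (x + 1) by ring, u_mul] at c1
            rw [show 6 * x + 12 = 6 * (x + 2) by ring, u_mul] at c2
            rw [show 6 * x + 18 = 6 * (x + 3) by ring, u_mul] at c3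
            rw [show 6 * x + 24 = 6 * (x + 4) by ring, u_mul] at c4
            rw [show 6 * x + 30 = 6 * (x + 5) by ring, u_mul] at c5
            rw [show 6 * x + 36 = 6 * (x + 6) by ring, u_mul] at c6
            refine no_seven_ones (a := x) ?_
            intro k hk
            interval_cases k
            · exact c0
            · exact c1
            · exact c2
            · exact c3
            · exact c4
            · exact c5
            · exact c6
          · rw [hb, ← b0, hU]
        · -- two letters
          exfalso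
          subst hm2'
          have hP0 := hP 0 (by omega)
          have hP1 := hP 1 (by omega)
          rw [show 2 * 2 - 1 - 0 = 3 by norm_num] at hP0
          rw [show 2 * 2 - 1 - 1 = 2 by norm_num] at hP1
          have hy : ψ 2 = factor u (6 * a) 7 := by
            have := a1.1
            unfold At at this
            rw [show (ψ 2).length = 7 by omega] at this
            exact this.symm
          have hy2 : ψ 2 = [U a, 0, 0, 0, 0, 0, U (a + 1)] := by
            rw [hy]
            simp only [factor, List.range_succ, List.range_zero, List.nil_append,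
              List.map_cons, List.map_nil, List.cons_append]
            rw [u_zero (n := 6 * a + 1) (by omega), u_zero (n := 6 * a + 2) (by omega),
              u_zero (n := 6 * a + 3) (by omega), u_zero (n := 6 * a + 4) (by omega),
              u_zero (n := 6 * a + 5) (by omega), show 6 * a + 6 = 6 * (a + 1) by ring,
              Nat.add_zero, u_mul, u_mul]
          have hyp := h 2
          unfold IsPal at hyp
          rw [hy2] at hyp
          have hUU : U (a + 1) = U a := by
            simp only [List.reverse_cons, List.reverse_nil, List.nil_append, List.cons_append,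
              List.cons.injEq] at hyp
            exact hyp.1
          rw [hUU] at hy2
          rw [hy2] at hi' hi3
          rcases U_eq a with hU | hU
          · rw [hU] at hi3
            have c0 : u (i3 + 0) = 1 := letter_of_get hi3 rfl
            have c1 : u (i3 + 6) = 1 := letter_of_get hi3 rfl
            have c2 : u (i3 + 12) = 1 := letter_of_get hi3 rfl
            have c3 : u (i3 + 18) = 1 := letter_of_get hi3 rfl
            have c4 : u (i3 + 24) = 1 := letter_of_get hi3 rfl
            have c5 : u (i3 + 30) = 1 := letter_of_get hi3 rfl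
            have c6 : u (i3 + 36) = 1 := letter_of_get hi3 rfl
            have d0 := (u_ne_zero_iff (i3 + 0)).1 (by rw [c0]; decide)
            obtain ⟨x, rfl⟩ : ∃ x, i3 = 6 * x := ⟨i3 / 6, by omega⟩
            rw [show 6 * x + 0 = 6 * (x + 0) by ring, u_mul] at c0
            rw [show 6 * x + 6 = 6 * (x + 1) by ring, u_mul] at c1
            rw [show 6 * x + 12 = 6 * (x + 2) by ring, u_mul] at c2
            rw [show 6 * x + 18 = 6 * (x + 3) by ring, u_mul] at c3
            rw [show 6 * x + 24 = 6 * (x + 4) by ring, u_mul] at c4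
            rw [show 6 * x + 30 = 6 * (x + 5) by ring, u_mul] at c5
            rw [show 6 * x + 36 = 6 * (x + 6) by ring, u_mul] at c6
            refine no_seven_ones (a := x) ?_
            intro k hk
            interval_cases k
            · exact c0
            · exact c1
            · exact c2
            · exact c3
            · exact c4
            · exact c5
            · exact c6
          · rw [hU] at hi'
            have c0 : u (6 * a + 0) = 2 := letter_of_get hi' rfl
            have c1 : u (6 * a + 6) = 2 := letter_of_get hi' rfl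
            have c2 : u (6 * a + 12) = 2 := letter_of_get hi' rfl
            have c3 : u (6 * a + 18) = 2 := letter_of_get hi' rfl
            rw [show 6 * a + 0 = 6 * (a + 0) by ring, u_mul] at c0
            rw [show 6 * a + 6 = 6 * (a + 1) by ring, u_mul] at c1
            rw [show 6 * a + 12 = 6 * (a + 2) by ring, u_mul] at c2
            rw [show 6 * a + 18 = 6 * (a + 3) by ring, u_mul] at c3
            refine no_four_twos (a := a) ?_
            intro k hk
            interval_cases k
            · exact c0
            · exact c1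
            · exact c2
            · exact c3
    intro a
    fin_cases a
    · exact h0
    · exact h1
    · exact h2

theorem short_id {ψ : Fin 3 → List (Fin 3)} {e : List (Fin 3)} (he : e.length ≤ 1)
    (h : ∀ a, ∃ q, IsPal q ∧ ψ a = e ++ q) (hm : Maps ψ) (hne : ∃ a, ψ a ≠ []) :
    ∀ a, ψ a = [a] := by
  rcases Nat.eq_zero_or_pos e.length with h0 | h0
  · have : e = [] := List.eq_nil_of_length_eq_zero h0
    subst this
    refine case_short (fun a => ?_) hm hne
    obtain ⟨q, hq, hq2⟩ := h a
    rw [hq2]
    exact hq
  · obtain ⟨b, rfl⟩ := List.length_eq_one_iff.1 (by omega : e.length = 1)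
    exact (case_long h hm).elim

/-- The only morphism of class P' with a fixed point having the language of `u` is the
identity. -/
theorem only_identity {ψ : Fin 3 → List (Fin 3)} (hψ : ClassP' ψ) {v : ℕ → Fin 3}
    (hf : IsFixedPoint ψ v) (hL : Lang v = Lang u) : ∀ a, ψ a = [a] := by
  obtain ⟨χ, hχ, w, hw⟩ := hψ
  have hm := maps_of_fixed hf hL
  have hne := ne_of_fixed hf
  obtain ⟨ψ2, r, e, hr, he, _, hq⟩ := normalise hχ
  rcases hw with hw | hw
  · have hm1 := transfer1 hw hne hm
    have hne1 := ne_transfer1 hw hne
    have hm2 := transfer1 hr hne1 hm1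
    have hne2 := ne_transfer1 hr hne1
    have hid := short_id he hq hm2 hne2
    have hχid : ∀ a, χ a = [a] := conj_id1 (w := r) (fun a => by rw [hr, hid])
    exact conj_id1 (w := w) (fun a => by rw [hw, hχid])
  · have hm1 := transfer2 hw hne hm
    have hne1 := ne_transfer2 hw hne
    have hm2 := transfer1 hr hne1 hm1
    have hne2 := ne_transfer1 hr hne1
    have hid := short_id he hq hm2 hne2
    have hχid : ∀ a, χ a = [a] := conj_id1 (w := r) (fun a => by rw [hr, hid])
    exact conj_id2 (w := w) (fun a => by rw [hw, hχid])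

end ClassPConj
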