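import Pool.Agent.Work.MP_caf222_co.Word

/-!
# Occurrences of finite words, and the fixed point property of `u`
-/

namespace ClassPConj

variable {A : Type*}

theorem factor_zero (u : ℕ → A) (i : ℕ) : factor u i 0 = [] := rfl

theorem length_factor (u : ℕ → A) (i n : ℕ) : (factor u i n).length = n := by
  simp [factor]

theorem factor_add (u : ℕ → A) (i m n : ℕ) :
    factor u i (m + n) = factor u i m ++ factor u (i + m) n := by
  simp only [factor, List.range_add, List.map_append, List.map_map]
  congr 1
  apply List.map_congr_left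
  intro k _
  simp only [Function.comp]
  congr 1
  omega

theorem factor_one (u : ℕ → A) (i : ℕ) : factor u i 1 = [u i] := by
  simp [factor, List.range_succ]

theorem factor_succ (u : ℕ → A) (i n : ℕ) :
    factor u i (n + 1) = u i :: factor u (i + 1) n := by
  rw [Nat.add_comm n 1, factor_add, factor_one]
  rfl

/-- The word `w` occurs in `u` at position `i`. -/
def At (u : ℕ → A) (i : ℕ) (w : List A) : Prop := factor u i w.length = w

theorem At_nil (u : ℕ → A) (i : ℕ) : At u i [] := rfl

theorem At_cons {u : ℕ → A} {i : ℕ} {a : A} {w : List A} :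
    At u i (a :: w) ↔ u i = a ∧ At u (i + 1) w := by
  unfold At
  rw [List.length_cons, factor_succ, List.cons_eq_cons]

theorem At_append {u : ℕ → A} {i : ℕ} {x y : List A} :
    At u i (x ++ y) ↔ At u i x ∧ At u (i + x.length) y := by
  unfold At
  rw [List.length_append, factor_add]
  constructor
  · intro h
    have := List.append_inj h (length_factor _ _ _)
    exact this
  · rintro ⟨h1, h2⟩
    rw [h1, h2]

theorem At_factor (u : ℕ → A) (i n : ℕ) : At u i (factor u i n) := by
  unfold At
  rw [length_factor]

/-- The letters of a word occurring at position `i`. -/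
theorem At_get {u : ℕ → A} {i : ℕ} {w : List A} (h : At u i w) {k : ℕ} (hk : k < w.length) :
    w[k]? = some (u (i + k)) := by
  unfold At at h
  conv_lhs => rw [← h]
  simp [factor, hk]

/-- The word `w` occurs in `u`. -/
def Occ (u : ℕ → A) (w : List A) : Prop := ∃ i, At u i w

theorem occ_iff {u : ℕ → A} {w : List A} : Occ u w ↔ w ∈ Lang u := by
  constructor
  · rintro ⟨i, h⟩
    exact ⟨i, w.length, h.symm⟩
  · rintro ⟨i, n, rfl⟩
    exact ⟨i, At_factor u i n⟩

theorem Occ.right {u : ℕ → A} {x y : List A} (h : Occ u (x ++ y)) : Occ u y := by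
  obtain ⟨i, h⟩ := h
  exact ⟨_, (At_append.1 h).2⟩

theorem Occ.left {u : ℕ → A} {x y : List A} (h : Occ u (x ++ y)) : Occ u x := by
  obtain ⟨i, h⟩ := h
  exact ⟨_, (At_append.1 h).1⟩

theorem img_nil (φ : A → List A) : img φ [] = [] := rfl

theorem img_cons (φ : A → List A) (a : A) (w : List A) : img φ (a :: w) = φ a ++ img φ w := by
  simp [img]

theorem img_append (φ : A → List A) (x y : List A) : img φ (x ++ y) = img φ x ++ img φ y := by
  simp [img]

theorem img_singleton (φ : A → List A) (a : A) : img φ [a] = φ a := by
  simp [img]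

/-- The morphism of the counterexample. -/
def phi : Fin 3 → List (Fin 3)
  | 0 => [1, 0, 0, 0, 0, 0]
  | 1 => [2, 0, 0, 0, 0, 0, 1, 0, 0, 0, 0, 0, 1, 0, 0, 0, 0, 0, 1, 0, 0, 0, 0, 0,
          1, 0, 0, 0, 0, 0, 1, 0, 0, 0, 0, 0, 2, 0, 0, 0, 0, 0, 1, 0, 0, 0, 0, 0,
          2, 0, 0, 0, 0, 0]
  | 2 => [2, 0, 0, 0, 0, 0, 1, 0, 0, 0, 0, 0, 1, 0, 0, 0, 0, 0, 1, 0, 0, 0, 0, 0,
          1, 0, 0, 0, 0, 0, 1, 0, 0, 0, 0, 0, 2, 0, 0, 0, 0, 0, 2, 0, 0, 0, 0, 0,
          2, 0, 0, 0, 0, 0]

theorem phi_primitive : Primitive phi := by
  refine ⟨2, ?_⟩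
  decide

/-- Position of the block `phi (u n)`. -/
def S (n : ℕ) : ℕ := if n % 6 = 0 then 14 * n else 84 * (n / 6) + 48 + 6 * (n % 6)

theorem At_six {i : ℕ} {a : Fin 3} (h : i % 6 = 0) (hU : U (i / 6) = a) {w : List (Fin 3)}
    (hw : At u (i + 6) w) : At u i (a :: 0 :: 0 :: 0 :: 0 :: 0 :: w) := by
  rw [At_cons, At_cons, At_cons, At_cons, At_cons, At_cons]
  refine ⟨?_, u_zero (by omega), u_zero (by omega), u_zero (by omega), u_zero (by omega),
    u_zero (by omega), hw⟩
  rw [← hU, show i = 6 * (i / 6) by omega, u_mul]
  congr 1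
  omega

theorem At_block (n : ℕ) : At u (S n) (phi (u n)) := by
  unfold S
  by_cases h0 : n % 6 = 0
  · rw [if_pos h0]
    obtain ⟨m, rfl⟩ : ∃ m, n = 6 * m := ⟨n / 6, by omega⟩
    rw [u_mul]
    have h7 : U ((14 * (6 * m) + 6 + 6 + 6 + 6 + 6 + 6 + 6) / 6) = U m := by
      rw [U_seven (by omega)]
      congr 1
      omega
    rcases U_eq m with hU | hU
    · rw [hU]
      rw [hU] at h7
      unfold phi
      refine At_six (by omega) (U_two (by omega)) ?_
      refine At_six (by omega) (U_one (by omega) (by omega) (by omega) (by omega)) ?_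
      refine At_six (by omega) (U_one (by omega) (by omega) (by omega) (by omega)) ?_
      refine At_six (by omega) (U_one (by omega) (by omega) (by omega) (by omega)) ?_
      refine At_six (by omega) (U_one (by omega) (by omega) (by omega) (by omega)) ?_
      refine At_six (by omega) (U_one (by omega) (by omega) (by omega) (by omega)) ?_
      refine At_six (by omega) (U_two (by omega)) ?_
      refine At_six (by omega) h7 ?_
      refine At_six (by omega) (U_two (by omega)) ?_
      exact At_nil _ _
    · rw [hU]
      rw [hU] at h7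
      unfold phi
      refine At_six (by omega) (U_two (by omega)) ?_
      refine At_six (by omega) (U_one (by omega) (by omega) (by omega) (by omega)) ?_
      refine At_six (by omega) (U_one (by omega) (by omega) (by omega) (by omega)) ?_
      refine At_six (by omega) (U_one (by omega) (by omega) (by omega) (by omega)) ?_
      refine At_six (by omega) (U_one (by omega) (by omega) (by omega) (by omega)) ?_
      refine At_six (by omega) (U_one (by omega) (by omega) (by omega) (by omega)) ?_
      refine At_six (by omega) (U_two (by omega)) ?_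
      refine At_six (by omega) h7 ?_
      refine At_six (by omega) (U_two (by omega)) ?_
      exact At_nil _ _
  · rw [if_neg h0, u_zero h0]
    unfold phi
    refine At_six (by omega) (U_one (by omega) (by omega) (by omega) (by omega)) ?_
    exact At_nil _ _

theorem length_phi (a : Fin 3) : (phi a).length = if a = 0 then 6 else 54 := by
  fin_cases a <;> rfl

theorem S_succ (n : ℕ) : S (n + 1) = S n + (phi (u n)).length := by
  rw [length_phi]
  by_cases h0 : n % 6 = 0
  · rw [if_neg ((u_ne_zero_iff n).2 h0)]
    unfold S
    rw [if_pos h0, if_neg (by omega)]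
    omega
  · rw [if_pos (u_zero h0)]
    unfold S
    rw [if_neg h0]
    by_cases h5 : (n + 1) % 6 = 0
    · rw [if_pos h5]; omega
    · rw [if_neg h5]; omega

theorem img_phi (n : ℕ) : img phi (factor u 0 n) = factor u 0 (S n) := by
  induction n with
  | zero => rfl
  | succ n ih =>
    rw [factor_add, img_append, ih, factor_one, img_singleton, S_succ, factor_add]
    congr 1
    have := At_block n
    unfold At at this
    simp only [Nat.zero_add]
    exact this.symm

theorem le_S (n : ℕ) : n ≤ S n := by
  unfold S
  split_ifs <;> omega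

theorem phi_fixes : IsFixedPoint phi u := by
  refine ⟨fun n => ?_, fun N => ⟨N, ?_⟩⟩
  · rw [img_phi, length_factor]
  · rw [img_phi, length_factor]
    exact le_S N

theorem u_palindromic : Palindromic u := by
  unfold Palindromic
  have key : ∀ k : ℕ, ∃ w, (w ∈ Lang u ∧ IsPal w) ∧ k < w.length := by
    intro k
    obtain ⟨M, R, hk, hRM, hP⟩ := U_palindromes k
    refine ⟨factor u (6 * M - 6 * R) (12 * R + 1), ⟨⟨_, _, rfl⟩, ?_⟩, ?_⟩
    · unfold IsPal
      apply List.ext_getElem?
      intro i
      by_cases hi : i < 12 * R + 1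
      · rw [List.getElem?_reverse (by rw [length_factor]; exact hi), length_factor]
        rw [At_get (At_factor u _ _) (by rw [length_factor]; omega),
          At_get (At_factor u _ _) (by rw [length_factor]; omega)]
        congr 1
        by_cases h6 : i % 6 = 0
        · rw [show 6 * M - 6 * R + (12 * R + 1 - 1 - i) = 6 * (M + R - i / 6) by omega,
            show 6 * M - 6 * R + i = 6 * (M - R + i / 6) by omega, u_mul, u_mul]
          by_cases hR : i / 6 ≤ R
          · have e := hP (R - i / 6) (by omega)
            rw [show M - R + i / 6 = M - (R - i / 6) by omega,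
              show M + R - i / 6 = M + (R - i / 6) by omega]
            exact e.symm
          · have e := hP (i / 6 - R) (by omega)
            rw [show M - R + i / 6 = M + (i / 6 - R) by omega,
              show M + R - i / 6 = M - (i / 6 - R) by omega]
            exact e
        · rw [u_zero (by omega), u_zero (by omega)]
      · rw [List.getElem?_eq_none (by rw [List.length_reverse, length_factor]; omega),
          List.getElem?_eq_none (by rw [length_factor]; omega)]
    · rw [length_factor]; omega
  intro hfin
  obtain ⟨B, hB⟩ := (hfin.image List.length).bddAbove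
  obtain ⟨w, hw, hl⟩ := key B
  have := hB ⟨w, hw, rfl⟩
  omega

end ClassPConj
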