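import Pool.Agent.Work.MP_caf222_co.Occ

/-!
# Conjugation and the property of mapping factors to factors
-/

namespace ClassPConj

/-- The morphism `ψ` maps factors of `u` to factors of `u`. -/
def Maps (ψ : Fin 3 → List (Fin 3)) : Prop := ∀ w, Occ u w → Occ u (img ψ w)

theorem maps_of_fixed {ψ : Fin 3 → List (Fin 3)} {v : ℕ → Fin 3} (hf : IsFixedPoint ψ v)
    (hL : Lang v = Lang u) : Maps ψ := by
  intro w hw
  rw [occ_iff, ← hL, ← occ_iff] at hw
  obtain ⟨i, hi⟩ := hw
  rw [occ_iff, ← hL, ← occ_iff]
  have h1 := hf.1 (i + w.length)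
  have h2 : factor v 0 (i + w.length) = factor v 0 i ++ w := by
    rw [factor_add, Nat.zero_add]
    unfold At at hi
    rw [hi]
  have h3 : At v 0 (img ψ (factor v 0 (i + w.length))) := h1.symm
  rw [h2, img_append] at h3
  exact ⟨_, (At_append.1 h3).2⟩

theorem ne_of_fixed {ψ : Fin 3 → List (Fin 3)} {v : ℕ → Fin 3} (hf : IsFixedPoint ψ v) :
    ∃ a, ψ a ≠ [] := by
  by_contra hc
  push Not at hc
  obtain ⟨n, hn⟩ := hf.2 1
  have : img ψ (factor v 0 n) = [] := by
    unfold img
    rw [List.flatMap_eq_nil_iff]
    intro a _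
    exact hc a
  rw [this] at hn
  simp at hn

theorem letter_after (a : Fin 3) (i : ℕ) : ∃ k, i ≤ k ∧ u k = a := by
  fin_cases a
  · exact ⟨6 * i + 1, by omega, u_zero (by omega)⟩
  · refine ⟨6 * (14 * i + 1), by omega, ?_⟩
    rw [u_mul]
    exact U_one (by omega) (by omega) (by omega) (by omega)
  · refine ⟨6 * (14 * i), by omega, ?_⟩
    rw [u_mul]
    exact U_two (by omega)

theorem long_right {ψ : Fin 3 → List (Fin 3)} (hne : ∃ a, ψ a ≠ []) (i N : ℕ) :
    ∃ n, N ≤ (img ψ (factor u i n)).length := by
  induction N with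
  | zero => exact ⟨0, Nat.zero_le _⟩
  | succ N ih =>
    obtain ⟨n, hn⟩ := ih
    obtain ⟨a, ha⟩ := hne
    obtain ⟨k, hk, hu⟩ := letter_after a (i + n)
    refine ⟨n + ((k - (i + n)) + 1), ?_⟩
    rw [factor_add, factor_add, img_append, img_append, factor_one,
      show i + n + (k - (i + n)) = k by omega, hu, img_singleton]
    have : 0 < (ψ a).length := List.length_pos_iff.2 ha
    simp only [List.length_append]
    omega

theorem img_length_mono {ψ : Fin 3 → List (Fin 3)} {m n : ℕ} (h : m ≤ n) :
    (img ψ (factor u 0 m)).length ≤ (img ψ (factor u 0 n)).length := by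
  obtain ⟨d, rfl⟩ := Nat.exists_eq_add_of_le h
  rw [factor_add, img_append, List.length_append]
  omega

/-- recurrence -/
theorem far_occurrence {w : List (Fin 3)} (h : Occ u w) (n : ℕ) : ∃ i, n ≤ i ∧ At u i w := by
  obtain ⟨i, hi⟩ := h
  have hK : i + w.length < 6 * 14 ^ (i + w.length) := by
    have : i + w.length < 14 ^ (i + w.length) := Nat.lt_pow_self (by norm_num)
    omega
  refine ⟨i + 6 * 14 ^ (i + w.length + 1) * n, ?_, ?_⟩
  · have : 1 ≤ 6 * 14 ^ (i + w.length + 1) := Nat.one_le_iff_ne_zero.2 (by positivity)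
    calc n = 1 * n := by ring
      _ ≤ 6 * 14 ^ (i + w.length + 1) * n := Nat.mul_le_mul_right _ this
      _ ≤ _ := Nat.le_add_left _ _
  · unfold At at hi ⊢
    conv_rhs => rw [← hi]
    unfold factor
    apply List.map_congr_left
    intro k hk
    rw [List.mem_range] at hk
    rw [show i + 6 * 14 ^ (i + w.length + 1) * n + k = (i + k) + 6 * 14 ^ (i + w.length + 1) * n
      by ring]
    exact u_shift (i + w.length) (i + k) (by omega) n

section
variable {A : Type*} {ψ χ : A → List A} {w : List A}

theorem conj_img (h : ∀ a, ψ a ++ w = w ++ χ a) (z : List A) :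
    img ψ z ++ w = w ++ img χ z := by
  induction z with
  | nil => simp [img]
  | cons a z ih =>
    rw [img_cons, img_cons, List.append_assoc, ih, ← List.append_assoc, h, List.append_assoc]

theorem conj_img' (h : ∀ a, w ++ ψ a = χ a ++ w) (z : List A) :
    w ++ img ψ z = img χ z ++ w :=
  (conj_img (ψ := χ) (χ := ψ) (fun a => (h a).symm) z).symm

theorem ne_transfer1 (h : ∀ a, ψ a ++ w = w ++ χ a) (hne : ∃ a, ψ a ≠ []) : ∃ a, χ a ≠ [] := by
  obtain ⟨a, ha⟩ := hne
  refine ⟨a, fun hc => ha ?_⟩
  have := congrArg List.length (h a)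
  rw [hc] at this
  simp only [List.length_append, List.length_nil] at this
  exact List.eq_nil_of_length_eq_zero (by omega)

theorem ne_transfer2 (h : ∀ a, w ++ ψ a = χ a ++ w) (hne : ∃ a, ψ a ≠ []) : ∃ a, χ a ≠ [] := by
  obtain ⟨a, ha⟩ := hne
  refine ⟨a, fun hc => ha ?_⟩
  have := congrArg List.length (h a)
  rw [hc] at this
  simp only [List.length_append, List.length_nil] at this
  exact List.eq_nil_of_length_eq_zero (by omega)

end

theorem transfer1 {ψ χ : Fin 3 → List (Fin 3)} {w : List (Fin 3)}
    (h : ∀ a, ψ a ++ w = w ++ χ a) (hne : ∃ a, ψ a ≠ []) (hm : Maps ψ) : Maps χ := by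
  intro x hx
  obtain ⟨i, hi⟩ := hx
  obtain ⟨n, hn⟩ := long_right hne (i + x.length) w.length
  have hocc : Occ u (x ++ factor u (i + x.length) n) :=
    ⟨i, At_append.2 ⟨hi, At_factor _ _ _⟩⟩
  have h1 := hm _ hocc
  set y := factor u (i + x.length) n with hy
  have h2 := conj_img h (x ++ y)
  have h3 := conj_img h y
  have l3 := congrArg List.length h3
  rw [List.length_append, List.length_append] at l3
  rw [img_append χ, ← List.append_assoc] at h2
  have l2 := congrArg List.length h2
  simp only [List.length_append] at l2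
  rcases List.append_eq_append_iff.1 h2 with ⟨a', e1, e2⟩ | ⟨c', e1, e2⟩
  · have l := congrArg List.length e1
    simp only [List.length_append] at l
    have ha' : a' = [] := List.eq_nil_of_length_eq_zero (by omega)
    rw [ha', List.append_nil] at e1
    rw [← e1] at h1
    exact h1.right
  · rw [e1] at h1
    exact h1.left.right

theorem transfer2 {ψ χ : Fin 3 → List (Fin 3)} {w : List (Fin 3)}
    (h : ∀ a, w ++ ψ a = χ a ++ w) (hne : ∃ a, ψ a ≠ []) (hm : Maps ψ) : Maps χ := by
  intro x hx
  obtain ⟨n, hn⟩ := long_right hne 0 w.length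
  obtain ⟨i, hni, hi⟩ := far_occurrence hx n
  have hlen := le_trans hn (img_length_mono (ψ := ψ) hni)
  have hocc : Occ u (factor u 0 i ++ x) :=
    ⟨0, At_append.2 ⟨At_factor _ _ _, by rw [length_factor, Nat.zero_add]; exact hi⟩⟩
  have h1 := hm _ hocc
  set y := factor u 0 i with hy
  have h2 := conj_img' h (y ++ x)
  have h3 := conj_img' h y
  have l3 := congrArg List.length h3
  rw [List.length_append, List.length_append] at l3
  rw [img_append χ, List.append_assoc] at h2
  rcases List.append_eq_append_iff.1 h2 with ⟨a', e1, e2⟩ | ⟨c', e1, e2⟩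
  · rw [e2] at h1
    exact h1.right.left
  · have l := congrArg List.length e1
    simp only [List.length_append] at l
    have hc' : c' = [] := List.eq_nil_of_length_eq_zero (by omega)
    rw [hc', List.nil_append] at e2
    rw [← e2] at h1
    exact h1.left

/-- a conjugate of the identity is the identity -/
theorem conj_id1 {ψ : Fin 3 → List (Fin 3)} {w : List (Fin 3)}
    (h : ∀ a, ψ a ++ w = w ++ [a]) : ∀ a, ψ a = [a] := by
  rcases List.eq_nil_or_concat w with hw | ⟨w', b, hw⟩
  · intro a
    have := h a
    rw [hw] at this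
    simpa using this
  · exfalso
    have key : ∀ a, b = a := by
      intro a
      have := h a
      rw [hw, List.concat_eq_append, ← List.append_assoc] at this
      have := (List.append_inj' this rfl).2
      simpa using this
    have := (key 0).symm.trans (key 1)
    exact absurd this (by decide)

theorem conj_id2 {ψ : Fin 3 → List (Fin 3)} {w : List (Fin 3)}
    (h : ∀ a, w ++ ψ a = [a] ++ w) : ∀ a, ψ a = [a] := by
  cases w with
  | nil =>
    intro a
    have := h a
    simpa using this
  | cons b w' =>
    exfalso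
    have key : ∀ a, b = a := by
      intro a
      have := h a
      simp only [List.cons_append, List.nil_append, List.cons.injEq] at this
      exact this.1
    have := (key 0).symm.trans (key 1)
    exact absurd this (by decide)

/-- A palindrome has the form `r e r~` with `e` of length at most one. -/
theorem pal_split {A : Type*} {p : List A} (hp : IsPal p) :
    ∃ r e : List A, e.length ≤ 1 ∧ IsPal e ∧ p = r ++ (e ++ r.reverse) := by
  have h : List.Palindrome p := List.Palindrome.of_reverse_eq hp
  clear hp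
  induction h with
  | nil => exact ⟨[], [], by simp, rfl, by simp⟩
  | singleton x => exact ⟨[], [x], by simp, rfl, by simp⟩
  | cons_concat x _ ih =>
    obtain ⟨r, e, h1, h2, h3⟩ := ih
    refine ⟨x :: r, e, h1, h2, ?_⟩
    rw [h3]
    simp

theorem normalise {χ : Fin 3 → List (Fin 3)} (h : ClassP χ) :
    ∃ (ψ : Fin 3 → List (Fin 3)) (r e : List (Fin 3)), (∀ a, χ a ++ r = r ++ ψ a) ∧
      e.length ≤ 1 ∧ IsPal e ∧ ∀ a, ∃ q, IsPal q ∧ ψ a = e ++ q := by
  obtain ⟨p, hp, hq⟩ := h
  choose q hq1 hq2 using hq
  obtain ⟨r, e, h1, h2, h3⟩ := pal_split hp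
  refine ⟨fun a => e ++ (r.reverse ++ (q a ++ r)), r, e, ?_, h1, h2, ?_⟩
  · intro a
    rw [hq2, h3]
    simp
  · intro a
    refine ⟨r.reverse ++ (q a ++ r), ?_, rfl⟩
    have := hq1 a
    unfold IsPal at this ⊢
    rw [List.reverse_append, List.reverse_append, this, List.reverse_reverse]
    simp

/-- Palindromes have palindromic images. -/
theorem img_rev {A : Type*} {ψ : A → List A} {p : List A} (hp : IsPal p)
    (h : ∀ a, ∃ q, IsPal q ∧ ψ a = p ++ q) (v : List A) :
    (img ψ v ++ p).reverse = img ψ v.reverse ++ p := by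
  induction v with
  | nil =>
    unfold IsPal at hp
    simpa [img] using hp
  | cons a v ih =>
    obtain ⟨q, hq, e⟩ := h a
    unfold IsPal at hp hq
    rw [img_cons, List.append_assoc, List.reverse_append, ih, List.reverse_cons, img_append,
      img_singleton, e, List.reverse_append, hp, hq]
    simp

end ClassPConj
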