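import Pool.Agent.Work.MP_caf222_co.Defs

/-!
# The infinite word `u` of the counterexample
-/

namespace ClassPConj

/-- The Toeplitz word `U` over `{1, 2}`. -/
def U (n : ℕ) : Fin 3 :=
  if n % 14 = 7 then U (n / 14)
  else if n % 14 = 0 ∨ n % 14 = 6 ∨ n % 14 = 8 then 2 else 1
termination_by n
decreasing_by
  have : 0 < n := by omega
  exact Nat.div_lt_self this (by norm_num)

/-- The word `u`: letters of `U` separated by blocks of five zeros. -/
def u (n : ℕ) : Fin 3 := if n % 6 = 0 then U (n / 6) else 0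

theorem U_seven {n : ℕ} (h : n % 14 = 7) : U n = U (n / 14) := by
  rw [U, if_pos h]

theorem U_two {n : ℕ} (h : n % 14 = 0 ∨ n % 14 = 6 ∨ n % 14 = 8) : U n = 2 := by
  rw [U, if_neg (by omega), if_pos h]

theorem U_one {n : ℕ} (h7 : n % 14 ≠ 7) (h0 : n % 14 ≠ 0) (h6 : n % 14 ≠ 6)
    (h8 : n % 14 ≠ 8) : U n = 1 := by
  rw [U, if_neg h7, if_neg (by omega)]

theorem U_ne_zero (n : ℕ) : U n ≠ 0 := by
  induction n using Nat.strong_induction_on with
  | _ n ih =>
    by_cases h7 : n % 14 = 7
    · rw [U_seven h7]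
      exact ih _ (Nat.div_lt_self (by omega) (by norm_num))
    · by_cases h : n % 14 = 0 ∨ n % 14 = 6 ∨ n % 14 = 8
      · rw [U_two h]; decide
      · rw [U_one h7 (by omega) (by omega) (by omega)]; decide

theorem U_eq (n : ℕ) : U n = 1 ∨ U n = 2 := by
  have h := U_ne_zero n
  revert h
  generalize U n = x
  fin_cases x <;> simp

/-- if `U m = 2` then `m` is congruent to `0`, `6`, `7` or `8` modulo `14`. -/
theorem mod_of_U_two {n : ℕ} (h : U n = 2) :
    n % 14 = 0 ∨ n % 14 = 6 ∨ n % 14 = 7 ∨ n % 14 = 8 := by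
  by_contra hc
  push Not at hc
  rw [U_one hc.2.2.1 hc.1 hc.2.1 hc.2.2.2] at h
  exact absurd h (by decide)

theorem mod_of_U_one {n : ℕ} (h : U n = 1) :
    n % 14 ≠ 0 ∧ n % 14 ≠ 6 ∧ n % 14 ≠ 8 := by
  refine ⟨fun h0 => ?_, fun h0 => ?_, fun h0 => ?_⟩ <;>
  · rw [U_two (by omega)] at h
    exact absurd h (by decide)

/-- two positions with equal letters cannot be one of the type `2` and the other of type `1`. -/
theorem U_clash {a b : ℕ} (ha : a % 14 = 0 ∨ a % 14 = 6 ∨ a % 14 = 8)
    (hb : b % 14 ≠ 7 ∧ b % 14 ≠ 0 ∧ b % 14 ≠ 6 ∧ b % 14 ≠ 8) : U a ≠ U b := by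
  rw [U_two ha, U_one hb.1 hb.2.1 hb.2.2.1 hb.2.2.2]
  decide

/-- Fact F2: `U` has no even palindrome of length six. -/
theorem no_even_pal {m : ℕ} (hm : 2 ≤ m) (h0 : U m = U (m + 1)) (h1 : U (m - 1) = U (m + 2))
    (h2 : U (m - 2) = U (m + 3)) : False := by
  have hr : m % 14 < 14 := Nat.mod_lt _ (by norm_num)
  have key : m % 14 = 0 ∨ m % 14 = 1 ∨ m % 14 = 2 ∨ m % 14 = 3 ∨ m % 14 = 4 ∨ m % 14 = 5 ∨
      m % 14 = 6 ∨ m % 14 = 7 ∨ m % 14 = 8 ∨ m % 14 = 9 ∨ m % 14 = 10 ∨ m % 14 = 11 ∨
      m % 14 = 12 ∨ m % 14 = 13 := by omega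
  rcases key with h | h | h | h | h | h | h | h | h | h | h | h | h | h
  · exact U_clash (by omega) (by omega) h0
  · exact U_clash (by omega) (by omega) h1
  · exact U_clash (by omega) (by omega) h2
  · exact U_clash (by omega) (by omega) h2.symm
  · exact U_clash (by omega) (by omega) h1.symm
  · exact U_clash (by omega) (by omega) h0.symm
  · exact U_clash (by omega) (by omega) h1.symm
  · exact U_clash (by omega) (by omega) h1
  · exact U_clash (by omega) (by omega) h0
  · exact U_clash (by omega) (by omega) h1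
  · exact U_clash (by omega) (by omega) h2
  · exact U_clash (by omega) (by omega) h2.symm
  · exact U_clash (by omega) (by omega) h1.symm
  · exact U_clash (by omega) (by omega) h0.symm

/-- A centre of a palindrome of radius at least `5` of `U` is congruent to `0` or `7`. -/
theorem centre_mod {m : ℕ} (hm : 5 ≤ m) (h : ∀ j, j ≤ 5 → U (m - j) = U (m + j)) :
    m % 14 = 0 ∨ m % 14 = 7 := by
  have key : m % 14 = 0 ∨ m % 14 = 1 ∨ m % 14 = 2 ∨ m % 14 = 3 ∨ m % 14 = 4 ∨ m % 14 = 5 ∨
      m % 14 = 6 ∨ m % 14 = 7 ∨ m % 14 = 8 ∨ m % 14 = 9 ∨ m % 14 = 10 ∨ m % 14 = 11 ∨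
      m % 14 = 12 ∨ m % 14 = 13 := by omega
  have h1 := h 1 (by norm_num)
  have h2 := h 2 (by norm_num)
  have h5 := h 5 (by norm_num)
  rcases key with h | h | h | h | h | h | h | h | h | h | h | h | h | h
  · exact Or.inl h
  · exact (U_clash (by omega) (by omega) h1).elim
  · exact (U_clash (by omega) (by omega) h2).elim
  · exact (U_clash (by omega) (by omega) h5.symm).elim
  · exact (U_clash (by omega) (by omega) h2.symm).elim
  · exact (U_clash (by omega) (by omega) h1.symm).elim
  · exact (U_clash (by omega) (by omega) h2.symm).elim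
  · exact Or.inr h
  · exact (U_clash (by omega) (by omega) h2).elim
  · exact (U_clash (by omega) (by omega) h1).elim
  · exact (U_clash (by omega) (by omega) h2).elim
  · exact (U_clash (by omega) (by omega) h5).elim
  · exact (U_clash (by omega) (by omega) h2.symm).elim
  · exact (U_clash (by omega) (by omega) h1.symm).elim

/-- Fact F3: no palindrome of `U` with a central repetition of exponent five. -/
theorem no_central_fifth (q : ℕ) : 1 ≤ q → ∀ m : ℕ, 7 * q ≤ m →
    (∀ j, j ≤ 7 * q → U (m - j) = U (m + j)) →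
    (∀ n, 2 * m ≤ 2 * n + 5 * q → 2 * n + 2 * q ≤ 2 * m + 5 * q → U n = U (n + q)) → False := by
  induction q using Nat.strong_induction_on with
  | _ q ih =>
    intro hq m hm hP hR
    rcases centre_mod (m := m) (by omega) (fun j hj => hP j (by omega)) with h0 | h7
    · -- the centre is `0` modulo `14`
      by_cases hq5 : q ≤ 5
      · exact U_clash (a := m) (b := m + q) (by omega) (by omega) (hR m (by omega) (by omega))
      · obtain ⟨M, rfl⟩ : ∃ M, m = 14 * M := ⟨m / 14, by omega⟩
        have e1 := hP 7 (by omega)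
        have e2 := hP 21 (by omega)
        have e3 := hP 35 (by omega)
        rw [U_seven (n := 14 * M - 7) (by omega), U_seven (n := 14 * M + 7) (by omega),
          show (14 * M - 7) / 14 = M - 1 by omega, show (14 * M + 7) / 14 = M by omega] at e1
        rw [U_seven (n := 14 * M - 21) (by omega), U_seven (n := 14 * M + 21) (by omega),
          show (14 * M - 21) / 14 = M - 1 - 1 by omega,
          show (14 * M + 21) / 14 = M + 1 by omega] at e2
        rw [U_seven (n := 14 * M - 35) (by omega), U_seven (n := 14 * M + 35) (by omega),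
          show (14 * M - 35) / 14 = M - 1 - 2 by omega,
          show (14 * M + 35) / 14 = M + 2 by omega] at e3
        refine no_even_pal (m := M - 1) (by omega) ?_ ?_ ?_
        · rw [e1]; congr 1; omega
        · rw [e2]; congr 1; omega
        · rw [e3]; congr 1; omega
    · -- the centre is `7` modulo `14`
      have e1 := hR (m + 1) (by omega) (by omega)
      have e2 := hR (m - 1) (by omega) (by omega)
      rw [U_two (n := m + 1) (by omega)] at e1
      rw [U_two (n := m - 1) (by omega)] at e2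
      have f1 := mod_of_U_two e1.symm
      have f2 := mod_of_U_two e2.symm
      have hq14 : q % 14 = 0 := by omega
      obtain ⟨Q, rfl⟩ : ∃ Q, q = 14 * Q := ⟨q / 14, by omega⟩
      obtain ⟨M, rfl⟩ : ∃ M, m = 14 * M + 7 := ⟨m / 14, by omega⟩
      refine ih Q (by omega) (by omega) M (by omega) ?_ ?_
      · intro j hj
        have e := hP (14 * j) (by omega)
        rw [U_seven (n := 14 * M + 7 - 14 * j) (by omega),
          U_seven (n := 14 * M + 7 + 14 * j) (by omega)] at e
        rw [show M - j = (14 * M + 7 - 14 * j) / 14 by omega,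
          show M + j = (14 * M + 7 + 14 * j) / 14 by omega]
        exact e
      · intro n h1 h2
        have e := hR (14 * n + 7) (by omega) (by omega)
        rw [U_seven (n := 14 * n + 7) (by omega),
          U_seven (n := 14 * n + 7 + 14 * Q) (by omega)] at e
        rw [show n + Q = (14 * n + 7 + 14 * Q) / 14 by omega]
        conv_lhs => rw [show n = (14 * n + 7) / 14 by omega]
        exact e

/-- Recurrence of `U`. -/
theorem U_shift (K : ℕ) : ∀ n, n < 14 ^ K → ∀ m, U (n + 14 ^ (K + 1) * m) = U n := by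
  induction K with
  | zero =>
    intro n hn m
    have : n = 0 := by simpa using hn
    subst this
    rw [U_two (n := 0) (by omega), U_two (by omega)]
  | succ K ih =>
    intro n hn m
    have e14 : (14 : ℕ) ^ (K + 1 + 1) * m = 14 * (14 ^ (K + 1) * m) := by ring
    rw [e14]
    have hlt : n < 14 * 14 ^ K := by
      rw [pow_succ] at hn; omega
    by_cases h7 : n % 14 = 7
    · rw [U_seven (n := n + 14 * (14 ^ (K + 1) * m)) (by omega), U_seven h7,
        show (n + 14 * (14 ^ (K + 1) * m)) / 14 = n / 14 + 14 ^ (K + 1) * m by omega]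
      exact ih _ (by omega) m
    · by_cases h : n % 14 = 0 ∨ n % 14 = 6 ∨ n % 14 = 8
      · rw [U_two h, U_two (by omega)]
      · rw [U_one h7 (by omega) (by omega) (by omega), U_one (by omega) (by omega) (by omega)
          (by omega)]

/-- Recurrence of `u`. -/
theorem u_shift (K n : ℕ) (hn : n < 6 * 14 ^ K) (m : ℕ) :
    u (n + 6 * 14 ^ (K + 1) * m) = u n := by
  have e : 6 * 14 ^ (K + 1) * m = 6 * (14 ^ (K + 1) * m) := by ring
  rw [e]
  unfold u
  have h1 : (n + 6 * (14 ^ (K + 1) * m)) % 6 = n % 6 := by omega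
  have h2 : (n + 6 * (14 ^ (K + 1) * m)) / 6 = n / 6 + 14 ^ (K + 1) * m := by omega
  rw [h1, h2]
  by_cases h : n % 6 = 0
  · rw [if_pos h, if_pos h]
    exact U_shift K _ (by omega) m
  · rw [if_neg h, if_neg h]

theorem u_mul (m : ℕ) : u (6 * m) = U m := by
  unfold u
  rw [if_pos (by omega)]
  congr 1
  omega

theorem u_zero {n : ℕ} (h : n % 6 ≠ 0) : u n = 0 := by
  unfold u
  rw [if_neg h]

theorem u_ne_zero_iff (n : ℕ) : u n ≠ 0 ↔ n % 6 = 0 := by
  constructor
  · intro h
    by_contra hc
    exact h (u_zero hc)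
  · intro h
    unfold u
    rw [if_pos h]
    exact U_ne_zero _

/-- `U` has palindromes of arbitrarily large radius. -/
theorem U_palindromes (k : ℕ) : ∃ M R, k ≤ R ∧ R + 1 ≤ M ∧ ∀ j, j ≤ R → U (M - j) = U (M + j) := by
  induction k with
  | zero => exact ⟨1, 0, le_refl _, le_refl _, fun j hj => by
      obtain rfl : j = 0 := by omega
      rfl⟩
  | succ k ih =>
    obtain ⟨M, R, hk, hRM, hP⟩ := ih
    refine ⟨14 * M + 7, 14 * R + 13, by omega, by omega, fun j hj => ?_⟩
    by_cases h0 : j % 14 = 0
    · rw [U_seven (n := 14 * M + 7 - j) (by omega), U_seven (n := 14 * M + 7 + j) (by omega),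
        show (14 * M + 7 - j) / 14 = M - j / 14 by omega,
        show (14 * M + 7 + j) / 14 = M + j / 14 by omega]
      exact hP _ (by omega)
    · by_cases h1 : j % 14 = 1 ∨ j % 14 = 7 ∨ j % 14 = 13
      · rw [U_two (n := 14 * M + 7 - j) (by omega), U_two (n := 14 * M + 7 + j) (by omega)]
      · rw [U_one (n := 14 * M + 7 - j) (by omega) (by omega) (by omega) (by omega),
          U_one (n := 14 * M + 7 + j) (by omega) (by omega) (by omega) (by omega)]

end ClassPConj
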